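import Pool.Agent.N931.PN.Stm

/-! Project PN (helper931), part SIDE (helper707): geometry of the sides. -/

set_option autoImplicit false

namespace Pool.Agent.N707.PN.Side

open H974 H12S H984N
open Pool.Agent.N116.EW (qd wv)
open Pool.Agent.N931.PN (Near1 S_SIDE)

theorem sd_eq (u v : Vtx) : sd u v =
    max (max (u.1 - v.1) (v.1 - u.1)) (max (u.2 - v.2) (v.2 - u.2)) := by
  unfold sd
  rw [abs_eq_max_neg, abs_eq_max_neg, neg_sub, neg_sub]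

theorem wv_mem {D : Dm} {u : Vtx} (hu : u ∈ wv D) :
    (u.2 = D.h ∧ D.l ≤ u.1 ∧ u.1 ≤ D.t) ∨ (u.1 = D.l ∧ 0 ≤ u.2 ∧ u.2 ≤ D.h) ∨
      (u.2 = 0 ∧ D.l ≤ u.1 ∧ u.1 ≤ 0) := by
  obtain ⟨⟨x, y, b⟩, he, hu⟩ := hu
  unfold Dm.wir at he
  simp only [Set.mem_ofPred_eq] at he
  rcases he with ⟨hb, h1, h2, h3⟩ | ⟨hb, h1, h2, h3⟩ | ⟨hb, h1, h2, h3⟩ <;> subst hb <;>
    rcases hu with rfl | rfl <;> simp only [src, tgt, if_true, Bool.false_eq_true, if_false] <;>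
    omega

theorem core {D : Dm} (ok : D.Ok) {z : Vtx} {d R : ℤ} (hz : inR D.l D.r 0 D.h z) (hd : 1 ≤ d)
    (hb : D.bd z ≤ d) (hdR : d ≤ R) (hl : 1000 * R ≤ -D.l) (hr : 1000 * R ≤ D.r)
    (hh : 1000 * R ≤ D.h) (h1 : 1000 * R ≤ sd z (D.l, 0)) (h2 : 1000 * R ≤ sd z (D.r, 0))
    (h3 : 1000 * R ≤ sd z (D.l, D.h)) (h4 : 1000 * R ≤ sd z (D.r, D.h))
    (h5 : 1000 * R ≤ sd z (D.t, D.h)) (h6 : 1000 * R ≤ sd z (0, 0)) :
    ((R + 2 ≤ z.1 - D.l ∧ R + 2 ≤ D.r - z.1 ∧ R + 2 ≤ D.h - z.2) ∨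
      (R + 2 ≤ z.1 - D.l ∧ R + 2 ≤ D.r - z.1 ∧ R + 2 ≤ z.2) ∨
      (R + 2 ≤ D.r - z.1 ∧ R + 2 ≤ z.2 ∧ R + 2 ≤ D.h - z.2) ∨
      (R + 2 ≤ z.1 - D.l ∧ R + 2 ≤ z.2 ∧ R + 2 ≤ D.h - z.2)) ∧
    ((∀ u ∈ wv D, R + 2 ≤ sd u z) ∨ (∀ f ∈ D.outer, R + 2 ≤ sd f z)) := by
  obtain ⟨⟨z1, z2⟩, z3, z4⟩ := hz
  obtain ⟨o1, o2, o3, o4, o5⟩ := ok
  rw [sd_eq] at h1 h2 h3 h4 h5 h6
  unfold Dm.bd at hb
  dsimp only at h1 h2 h3 h4 h5 h6
  obtain ⟨x, y⟩ := z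
  dsimp only at *
  have hcase : x - D.l ≤ d ∨ D.r - x ≤ d ∨ y ≤ d ∨ D.h - y ≤ d := by omega
  rcases hcase with hc | hc | hc | hc
  · -- left side
    have a1 : 1000 * R ≤ y := by omega
    have a2 : 1000 * R ≤ D.h - y := by omega
    have a3 : 1000 * R ≤ D.r - x := by omega
    refine ⟨Or.inr (Or.inr (Or.inl ⟨by omega, by omega, by omega⟩)), Or.inr fun f hf => ?_⟩
    rw [sd_eq]
    dsimp only
    rcases hf with ⟨f1, f2, f3⟩ | ⟨f1, f2, f3⟩ | ⟨f1, f2, f3⟩ <;> omega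
  · -- right side
    have a1 : 1000 * R ≤ y := by omega
    have a2 : 1000 * R ≤ D.h - y := by omega
    have a3 : 1000 * R ≤ x - D.l := by omega
    refine ⟨Or.inr (Or.inr (Or.inr ⟨by omega, by omega, by omega⟩)), Or.inl fun u hu => ?_⟩
    rw [sd_eq]
    dsimp only
    rcases wv_mem hu with ⟨f1, f2, f3⟩ | ⟨f1, f2, f3⟩ | ⟨f1, f2, f3⟩ <;> omega
  · -- bottom side
    have a1 : 1000 * R ≤ x - D.l := by omega
    have a2 : 1000 * R ≤ D.r - x := by omega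
    have a3 : 999 * R ≤ D.h - y := by omega
    refine ⟨Or.inl ⟨by omega, by omega, by omega⟩, ?_⟩
    rcases le_total x 0 with hx | hx
    · have a4 : 1000 * R ≤ -x := by omega
      refine Or.inr fun f hf => ?_
      rw [sd_eq]
      dsimp only
      rcases hf with ⟨f1, f2, f3⟩ | ⟨f1, f2, f3⟩ | ⟨f1, f2, f3⟩ <;> omega
    · have a4 : 1000 * R ≤ x := by omega
      refine Or.inl fun u hu => ?_
      rw [sd_eq]
      dsimp only
      rcases wv_mem hu with ⟨f1, f2, f3⟩ | ⟨f1, f2, f3⟩ | ⟨f1, f2, f3⟩ <;> omega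
  · -- top side
    have a1 : 1000 * R ≤ x - D.l := by omega
    have a2 : 1000 * R ≤ D.r - x := by omega
    have a3 : 999 * R ≤ y := by omega
    refine ⟨Or.inr (Or.inl ⟨by omega, by omega, by omega⟩), ?_⟩
    rcases le_total x D.t with hx | hx
    · have a4 : 1000 * R ≤ D.t - x := by omega
      refine Or.inr fun f hf => ?_
      rw [sd_eq]
      dsimp only
      rcases hf with ⟨f1, f2, f3⟩ | ⟨f1, f2, f3⟩ | ⟨f1, f2, f3⟩ <;> omega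
    · have a4 : 1000 * R ≤ x - D.t := by omega
      refine Or.inl fun u hu => ?_
      rw [sd_eq]
      dsimp only
      rcases wv_mem hu with ⟨f1, f2, f3⟩ | ⟨f1, f2, f3⟩ | ⟨f1, f2, f3⟩ <;> omega

/-- SIDE: geometry -/
theorem main : S_SIDE := by
  intro κ hκ
  refine ⟨min 1 κ / 1000, by positivity, ?_⟩
  intro n D hn hS z d R hz hd hb hdR hR
  have hm1 : min 1 κ ≤ 1 := min_le_left _ _
  have hm2 : min 1 κ ≤ κ := min_le_right _ _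
  have hm0 : 0 < min 1 κ := lt_min one_pos hκ
  have hq0 : 0 ≤ qd D z := by
    unfold qd sd
    simp only [le_min_iff, le_max_iff, abs_nonneg, true_or, and_self]
  have hq0' : (0:ℝ) ≤ qd D z := by exact_mod_cast hq0
  -- `1000 R ≤ qd`
  have hq1 : 1000 * (R : ℝ) ≤ qd D z := by
    have h1 : min 1 κ / 1000 * (qd D z : ℝ) ≤ 1 / 1000 * (qd D z : ℝ) :=
      mul_le_mul_of_nonneg_right (by linarith) hq0'
    linarith
  have hq2 : 1000 * (R : ℤ) ≤ qd D z := by exact_mod_cast hq1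
  -- `qd ≤ n`
  have hqn : (qd D z : ℝ) ≤ n := by
    have h1 : qd D z ≤ sd z (0, 0) := (min_le_right _ _).trans (min_le_right _ _)
    have h2 : sd z (0, 0) ≤ max (D.r - D.l) D.h := by
      obtain ⟨⟨z1, z2⟩, z3, z4⟩ := hz
      obtain ⟨o1, o2, o3, o4, o5⟩ := hS.ok
      rw [sd_eq]
      dsimp only
      omega
    have h3 : ((max (D.r - D.l) D.h : ℤ) : ℝ) ≤ n := by
      rcases max_choice (D.r - D.l) D.h with h | h <;> rw [h]
      · exact hS.w_le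
      · exact hS.h_le
    exact (by exact_mod_cast h1.trans h2 : (qd D z : ℝ) ≤ ((max (D.r - D.l) D.h : ℤ) : ℝ)).trans h3
  have hκn : 1000 * (R : ℝ) ≤ κ * n := by
    have h1 : min 1 κ / 1000 * (qd D z : ℝ) ≤ κ / 1000 * n :=
      mul_le_mul (by linarith) hqn hq0' (by positivity)
    linarith
  have hl : 1000 * (R : ℤ) ≤ -D.l := by
    have h1 : 1000 * (R : ℝ) ≤ -(D.l : ℝ) := hκn.trans (by exact_mod_cast hS.l_ge)
    exact_mod_cast h1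
  have hr : 1000 * (R : ℤ) ≤ D.r := by
    have h1 : 1000 * (R : ℝ) ≤ (D.r : ℝ) := hκn.trans hS.r_ge
    exact_mod_cast h1
  have hh : 1000 * (R : ℤ) ≤ D.h := by
    have h1 : 1000 * (R : ℝ) ≤ (D.h : ℝ) := hκn.trans hS.h_ge
    exact_mod_cast h1
  unfold qd at hq2
  simp only [le_min_iff] at hq2
  obtain ⟨⟨⟨h1, h2⟩, h3, h4⟩, h5, h6⟩ := hq2
  have h := core hS.ok hz (d := (d : ℤ)) (R := (R : ℤ)) (by exact_mod_cast hd) hb
    (by exact_mod_cast hdR) hl hr hh h1 h2 h3 h4 h5 h6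
  exact ⟨⟨hz, h.1⟩, h.2⟩

end Pool.Agent.N707.PN.Side
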